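import Pool.Agent.Helper67.KPG.St1

/-!
# Project KP, module CAS (a generalized eigenspace of the Casimir operator)
-/

set_option autoImplicit false

namespace Pool.Agent.Helper61.KPG

open Pool.Agent.Helper67.KPG Polynomial

universe u

variable {V : Type u} [AddCommGroup V] [Module ℂ V]

theorem four_smul' (X : Module.End ℂ V) : (4 : ℂ) • X = X + X + X + X := by
  rw [show (4 : ℂ) = 1 + 1 + 1 + 1 by norm_num, add_smul, add_smul, add_smul, one_smul]

theorem cas_eq (A B H : Module.End ℂ V) :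
    cas A B H = H * H + (H + H) + (B * A + B * A + B * A + B * A) := by
  unfold cas
  rw [two_smul, four_smul']

theorem comm_A (A B H : Module.End ℂ V) (h1 : H * A - A * H = (2 : ℂ) • A)
    (h3 : A * B - B * A = H) : Commute (cas A B H) A := by
  rw [two_smul] at h1
  have h1' : H * A = A * H + (A + A) := by rw [← h1]; abel
  have h3' : B * A = A * B - H := by rw [← h3]; abel
  have e1 : H * H * A = A * (H * H) + (A * H + A * H + A * H + A * H) + (A + A + A + A) := by
    calc H * H * A = H * (H * A) := by rw [mul_assoc]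
      _ = H * (A * H + (A + A)) := by rw [h1']
      _ = (H * A) * H + (H * A + H * A) := by noncomm_ring
      _ = (A * H + (A + A)) * H + ((A * H + (A + A)) + (A * H + (A + A))) := by rw [h1']
      _ = _ := by noncomm_ring
  have e2 : B * A * A = A * (B * A) - A * H - (A + A) := by
    calc B * A * A = (A * B - H) * A := by rw [h3']
      _ = A * (B * A) - H * A := by noncomm_ring
      _ = A * (B * A) - (A * H + (A + A)) := by rw [h1']
      _ = _ := by abel
  rw [cas_eq]
  show _ * A = A * _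
  calc (H * H + (H + H) + (B * A + B * A + B * A + B * A)) * A
      = H * H * A + (H * A + H * A) + (B * A * A + B * A * A + B * A * A + B * A * A) := by
        noncomm_ring
    _ = _ := by rw [e1, e2, h1']; noncomm_ring

theorem cas_symm (A B H : Module.End ℂ V) (h3 : A * B - B * A = H) :
    cas B A (-H) = cas A B H := by
  rw [cas_eq, cas_eq]
  have h3' : A * B = B * A + H := by rw [← h3]; abel
  rw [h3']
  noncomm_ring

theorem nilp [FiniteDimensional ℂ V] (A H : Module.End ℂ V) (c : ℂ) (hc : c ≠ 0)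
    (h1 : H * A - A * H = c • A) : IsNilpotent A := by
  by_contra hn
  set f : Module.End ℂ (Module.End ℂ V) := LinearMap.mulLeft ℂ H - LinearMap.mulRight ℂ H with hf
  have hk : ∀ k : ℕ, f (A ^ k) = ((k : ℂ) * c) • A ^ k := by
    intro k
    induction k with
    | zero => simp [hf]
    | succ k ih =>
      simp only [hf, LinearMap.sub_apply, LinearMap.mulLeft_apply, LinearMap.mulRight_apply] at ih ⊢
      calc H * A ^ (k + 1) - A ^ (k + 1) * H
          = (H * A ^ k - A ^ k * H) * A + A ^ k * (H * A - A * H) := by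
            rw [pow_succ]; noncomm_ring
        _ = _ := by
            rw [ih, h1, smul_mul_assoc, mul_smul_comm, ← pow_succ, ← add_smul]
            congr 1
            push_cast
            ring
  have hfin := Module.End.finite_hasEigenvalue f
  have hinj : Function.Injective (fun k : ℕ => (k : ℂ) * c) := by
    intro a b hab
    have := mul_right_cancel₀ hc hab
    exact_mod_cast this
  refine Set.infinite_range_of_injective hinj (hfin.subset ?_)
  rintro _ ⟨k, rfl⟩
  refine Module.End.hasEigenvalue_of_hasEigenvector (x := A ^ k) ⟨?_, fun h0 => hn ⟨k, h0⟩⟩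
  rw [Module.End.mem_eigenspace_iff]
  exact hk k

theorem key (H : Module.End ℂ V) (v : V) (n : ℕ) (μ : ℂ) (i : ℕ)
    (hi : ∀ j : ℕ, (j : ℂ) ^ 2 + 2 * j = μ → j = i)
    (hp : (aeval H (∏ j ∈ Finset.range n, (X - C (j : ℂ)))) v = 0) (N : ℕ)
    (hq : (aeval H ((X ^ 2 + 2 * X - C μ) ^ N)) v = 0) : H v = (i : ℂ) • v := by
  set r : ℂ[X] := ∏ j ∈ (Finset.range n).erase i, (X - C (j : ℂ)) with hr
  have hcop : IsCoprime r ((X ^ 2 + 2 * X - C μ) ^ N) := by
    refine IsCoprime.pow_right (IsCoprime.prod_left fun j hj => ?_)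
    have hji : j ≠ i := (Finset.mem_erase.mp hj).1
    have hval : (j : ℂ) ^ 2 + 2 * j - μ ≠ 0 := fun h0 => hji (hi j (sub_eq_zero.mp h0))
    refine (Polynomial.irreducible_X_sub_C _).coprime_iff_not_dvd.mpr fun hdvd => ?_
    rw [Polynomial.dvd_iff_isRoot] at hdvd
    apply hval
    simpa [Polynomial.IsRoot] using hdvd
  obtain ⟨a, b, hab⟩ := hcop
  -- the product divides `(X - i) r`
  have hdvd : (∏ j ∈ Finset.range n, (X - C (j : ℂ))) ∣ (X - C (i : ℂ)) * r := by
    by_cases hin : i ∈ Finset.range n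
    · rw [hr, Finset.mul_prod_erase _ (fun j : ℕ => (X - C (j : ℂ) : ℂ[X])) hin]
    · rw [hr, Finset.erase_eq_of_notMem hin]
      exact Dvd.intro_left _ rfl
  obtain ⟨s, hs⟩ := hdvd
  have h1 : (aeval H ((X - C (i : ℂ)) * r)) v = 0 := by
    rw [hs, mul_comm, map_mul, Module.End.mul_apply, hp, map_zero]
  have h2 : (aeval H (X - C (i : ℂ))) v = 0 := by
    have e : (X - C (i : ℂ)) = a * ((X - C (i : ℂ)) * r) +
        (X - C (i : ℂ)) * b * ((X ^ 2 + 2 * X - C μ) ^ N) := by
      calc (X - C (i : ℂ)) = (X - C (i : ℂ)) * (a * r + b * (X ^ 2 + 2 * X - C μ) ^ N) := by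
            rw [hab, mul_one]
        _ = _ := by ring
    rw [e, map_add, map_mul, map_mul (aeval H) ((X - C (i : ℂ)) * b), LinearMap.add_apply,
      Module.End.mul_apply, Module.End.mul_apply, h1, hq, map_zero, map_zero, add_zero]
  rw [map_sub, aeval_X, aeval_C, LinearMap.sub_apply, sub_eq_zero] at h2
  rw [h2]
  rfl

theorem side (hKER : StKER.{u}) (A B H : Module.End ℂ V) (h1 : H * A - A * H = (2 : ℂ) • A)
    (h3 : A * B - B * A = H) (hA : IsNilpotent A) (μ : ℂ) (i : ℕ)
    (hi : ∀ j : ℕ, (j : ℂ) ^ 2 + 2 * j = μ → j = i) (v : V)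
    (hv : v ∈ (cas A B H).maxGenEigenspace μ) (hAv : A v = 0) : H v = (i : ℂ) • v := by
  obtain ⟨n, hn⟩ := hA
  obtain ⟨N, hN⟩ := (Module.End.mem_maxGenEigenspace _ _ _).mp hv
  refine key H v n μ i hi (hKER V A B H n h1 h3 hn v hAv) N ?_
  have hHA : ∀ x, A x = 0 → A (H x) = 0 := by
    intro x hx
    have := LinearMap.congr_fun h1 x
    simp only [LinearMap.sub_apply, Module.End.mul_apply, LinearMap.smul_apply, hx, map_zero,
      smul_zero, zero_sub, neg_eq_zero] at this
    exact this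
  have hQ : ∀ x, A x = 0 → (cas A B H - μ • (1 : Module.End ℂ V)) x =
      (aeval H (X ^ 2 + 2 * X - C μ)) x ∧ A ((aeval H (X ^ 2 + 2 * X - C μ)) x) = 0 := by
    intro x hx
    have e : (aeval H (X ^ 2 + 2 * X - C μ : ℂ[X])) x = H (H x) + (2 : ℂ) • H x - μ • x := by
      have e2 : (2 : ℂ[X]) = C (2 : ℂ) := (map_ofNat (C : ℂ →+* ℂ[X]) 2).symm
      rw [e2]
      simp [pow_two, Module.End.mul_apply]
    constructor
    · rw [e]
      unfold cas
      simp [Module.End.mul_apply, hx]
    · rw [e, map_sub, map_add, map_smul, map_smul, hx, hHA x hx, hHA _ (hHA x hx)]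
      simp
  have hpow : ∀ k : ℕ, ((cas A B H - μ • (1 : Module.End ℂ V)) ^ k) v =
      (aeval H ((X ^ 2 + 2 * X - C μ) ^ k)) v ∧
      A ((aeval H ((X ^ 2 + 2 * X - C μ) ^ k)) v) = 0 := by
    intro k
    induction k with
    | zero => simpa using hAv
    | succ k ih =>
      obtain ⟨k1, k2⟩ := hQ _ ih.2
      rw [pow_succ', pow_succ', Module.End.mul_apply, ih.1, map_mul, Module.End.mul_apply]
      exact ⟨k1, k2⟩
  rw [← (hpow N).1]
  exact hN

theorem hCAS (hKER : StKER.{u}) : StCAS.{u} := by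
  intro V _ _ _ A B H h1 h2 h3
  have h1n : (-H) * B - B * (-H) = (2 : ℂ) • B := by
    have : (-H) * B - B * (-H) = -(H * B - B * H) := by noncomm_ring
    rw [this, h2, neg_neg]
  have h3n : B * A - A * B = -H := by rw [← h3]; abel
  have cA := comm_A A B H h1 h3
  have cB : Commute (cas A B H) B := by
    have := comm_A B A (-H) h1n h3n
    rwa [cas_symm A B H h3] at this
  have cH : Commute (cas A B H) H := by
    rw [← h3]
    nth_rewrite 1 [h3]
    exact (cA.mul_right cB).sub_right (cB.mul_right cA)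
  have nA : IsNilpotent A := nilp A H 2 (by norm_num) h1
  have nB : IsNilpotent B := nilp B (-H) 2 (by norm_num) h1n
  refine ⟨cA, cB, cH, nA, nB, fun μ => ?_⟩
  obtain ⟨i, hi⟩ : ∃ i : ℕ, ∀ j : ℕ, (j : ℂ) ^ 2 + 2 * j = μ → j = i := by
    by_cases h : ∃ i : ℕ, (i : ℂ) ^ 2 + 2 * i = μ
    · obtain ⟨i, hi⟩ := h
      refine ⟨i, fun j hj => ?_⟩
      rw [← hi] at hj
      have hj' : j ^ 2 + 2 * j = i ^ 2 + 2 * i := by exact_mod_cast hj
      nlinarith [sq_nonneg ((j : ℤ) - i), lt_trichotomy j i] 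
    · exact ⟨0, fun j hj => absurd ⟨j, hj⟩ h⟩
  refine ⟨i, fun v hv => ⟨fun hAv => side hKER A B H h1 h3 nA μ i hi v hv hAv, fun hBv => ?_⟩⟩
  have := side hKER B A (-H) h1n h3n nB μ i hi v (by rwa [cas_symm A B H h3]) hBv
  rw [LinearMap.neg_apply, neg_eq_iff_eq_neg] at this
  exact this

end Pool.Agent.Helper61.KPG
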